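import Mathlib

set_option autoImplicit false

/-!
# A non-semigroup grading of every full matrix algebra of order at least three

For every field `K` and every `n ≥ 3` the algebra of `n × n` matrices has a grading (in the sense of
the problem: a vector space decomposition together with the partial operation on the set of indices) with
finitely many nonzero components which is not a semigroup grading. The components are spanned by matrix
units: `E₁₁` and `E₃₂` span one component, `E₁₂` and `E₃₃` span another one, and every other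
matrix unit spans a component by itself.
-/

namespace Pool.Agent.Results.MP_5a34df_al.NonSemigroupGrading

universe u v w z

/-- A grading of the `K`-algebra `A` over the set `Γ`: a vector space decomposition of `A` into the
direct sum of the subspaces `comp g`, `g ∈ Γ`, together with a partial binary operation `op` on `Γ`
(`op g h = some r` means that `g * h` is defined and equal to `r`) such that `g * h` is defined exactly
when `A_g A_h ≠ 0`, and `A_g A_h ⊆ A_{g * h}` for each such pair. Here `comp g * comp h` is the span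
of the products `a b` with `a ∈ comp g`, `b ∈ comp h`. -/
structure Grading (K : Type u) (A : Type v) (Γ : Type w) [Field K] [Ring A] [Algebra K A] where
  /-- the components `A_g` -/
  comp : Γ → Submodule K A
  /-- the partial operation -/
  op : Γ → Γ → Option Γ
  indep : iSupIndep comp
  total : ⨆ g, comp g = ⊤
  defined : ∀ g h, (∃ r, op g h = some r) ↔ comp g * comp h ≠ ⊥
  mul_le : ∀ g h r, op g h = some r → comp g * comp h ≤ comp r

/-- The grading is a semigroup grading: there are a semigroup `G` and an injective map `ι : Γ → G`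
with `ι (g * h) = ι g * ι h` whenever `g * h` is defined, that is, whenever `A_g A_h ≠ 0`. -/
def Grading.IsSemigroupGrading {K : Type u} {A : Type v} {Γ : Type w} [Field K] [Ring A]
    [Algebra K A] (D : Grading K A Γ) : Prop :=
  ∃ (G : Type z) (_ : Semigroup G) (ι : Γ → G), Function.Injective ι ∧
    ∀ g h r, D.op g h = some r → ι r = ι g * ι h

section construction

variable {n : ℕ}

/-- The name of the class of the matrix unit with (zero-based) row `a` and column `b`: the units with
indices `(2, 1)` and `(0, 0)` have the same name `(0, 0)`, the units `(2, 2)` and `(0, 1)` have the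
same name `(0, 1)`, all other units have different names. -/
def nm (a b : ℕ) : ℕ × ℕ :=
  if a = 2 ∧ b = 1 then (0, 0) else if a = 2 ∧ b = 2 then (0, 1) else (a, b)

theorem nm_eq_iff (a b c d : ℕ) : nm a b = nm c d ↔
    (a = c ∧ b = d) ∨
    (a = 2 ∧ b = 1 ∧ c = 0 ∧ d = 0) ∨ (c = 2 ∧ d = 1 ∧ a = 0 ∧ b = 0) ∨
    (a = 2 ∧ b = 2 ∧ c = 0 ∧ d = 1) ∨ (c = 2 ∧ d = 2 ∧ a = 0 ∧ b = 1) := by
  unfold nm
  split_ifs <;> simp only [Prod.mk.injEq, true_and, true_iff] <;> omega

theorem nm_mul {i j k i' j' k' : ℕ} (h1 : nm i j = nm i' j') (h2 : nm j k = nm j' k') :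
    nm i k = nm i' k' := by
  rw [nm_eq_iff] at h1 h2 ⊢
  rcases h1 with h1 | h1 | h1 | h1 | h1 <;> rcases h2 with h2 | h2 | h2 | h2 | h2 <;> omega

/-- The class of the matrix unit `E_ij`. -/
def rep (p : Fin n × Fin n) : ℕ × ℕ := nm p.1 p.2

theorem rep_mul {i j k i' j' k' : Fin n} (h1 : rep (i, j) = rep (i', j'))
    (h2 : rep (j, k) = rep (j', k')) : rep (i, k) = rep (i', k') :=
  nm_mul h1 h2

variable (K : Type u) [Field K]

/-- The component with index `g`: matrices supported on the class `g`. -/
def cmp (g : Set.range (rep (n := n))) : Submodule K (Matrix (Fin n) (Fin n) K) where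
  carrier := {M | ∀ i j, M i j ≠ 0 → rep (i, j) = g}
  add_mem' := by
    intro M N hM hN i j h
    by_cases h1 : M i j = 0
    · refine hN i j fun h2 => h ?_
      rw [Matrix.add_apply, h1, h2, add_zero]
    · exact hM i j h1
  zero_mem' := by
    intro i j h
    exact absurd rfl h
  smul_mem' := by
    intro c M hM i j h
    refine hM i j fun h1 => h ?_
    rw [Matrix.smul_apply, h1, smul_zero]

theorem mem_cmp {g : Set.range (rep (n := n))} {M : Matrix (Fin n) (Fin n) K} :
    M ∈ cmp K g ↔ ∀ i j, M i j ≠ 0 → rep (i, j) = g := Iff.rfl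

theorem single_mem (i j : Fin n) (c : K) {g : Set.range (rep (n := n))} (hg : rep (i, j) = g) :
    Matrix.single i j c ∈ cmp K g := by
  intro a b h
  rw [Matrix.single_apply] at h
  by_cases h1 : i = a ∧ j = b
  · rw [← h1.1, ← h1.2]; exact hg
  · rw [if_neg h1] at h
    exact absurd rfl h

open Classical in
/-- The partial operation. -/
noncomputable def pop (g h : Set.range (rep (n := n))) : Option (Set.range (rep (n := n))) :=
  if H : ∃ i j k : Fin n, rep (i, j) = g ∧ rep (j, k) = h then
    some ⟨rep (H.choose, H.choose_spec.choose_spec.choose), ⟨_, rfl⟩⟩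
  else none

theorem pop_eq {g h r : Set.range (rep (n := n))} {i j k : Fin n} (h1 : rep (i, j) = g)
    (h2 : rep (j, k) = h) (h3 : rep (i, k) = r) : pop g h = some r := by
  have H : ∃ i j k : Fin n, rep (i, j) = g ∧ rep (j, k) = h := ⟨i, j, k, h1, h2⟩
  unfold pop
  rw [dif_pos H]
  congr 1
  apply Subtype.ext
  rw [← h3]
  have h4 := H.choose_spec.choose_spec.choose_spec
  exact rep_mul (h4.1.trans h1.symm) (h4.2.trans h2.symm)

theorem of_pop {g h r : Set.range (rep (n := n))} (H : pop g h = some r) :
    ∃ i j k : Fin n, rep (i, j) = g ∧ rep (j, k) = h ∧ rep (i, k) = r := by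
  unfold pop at H
  split_ifs at H with H1
  have h4 := H1.choose_spec.choose_spec.choose_spec
  refine ⟨_, _, _, h4.1, h4.2, ?_⟩
  rw [Option.some.injEq] at H
  rw [← H]

/-- The grading. -/
noncomputable def gr : Grading K (Matrix (Fin n) (Fin n) K) (Set.range (rep (n := n))) where
  comp := cmp K
  op := pop
  indep := by
    intro g
    rw [Submodule.disjoint_def]
    intro M hM hM'
    have hle : (⨆ h, ⨆ (_ : h ≠ g), cmp K h) ≤
        { carrier := {N : Matrix (Fin n) (Fin n) K | ∀ i j, rep (i, j) = g → N i j = 0}
          add_mem' := by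
            intro M N hM hN i j h
            rw [Matrix.add_apply, hM i j h, hN i j h, add_zero]
          zero_mem' := by intro i j _; rfl
          smul_mem' := by
            intro c M hM i j h
            rw [Matrix.smul_apply, hM i j h, smul_zero] } := by
      refine iSup_le fun h => iSup_le fun hne => ?_
      intro N hN i j hij
      by_contra h0
      exact hne (Subtype.ext ((hN i j h0).symm.trans hij))
    have h2 := hle hM'
    ext i j
    by_contra h0
    exact h0 (h2 i j (hM i j h0))
  total := by
    rw [eq_top_iff]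
    intro M _
    rw [Matrix.matrix_eq_sum_single M]
    refine Submodule.sum_mem _ fun i _ => Submodule.sum_mem _ fun j _ => ?_
    exact Submodule.mem_iSup_of_mem ⟨rep (i, j), ⟨_, rfl⟩⟩ (single_mem K i j _ rfl)
  defined := by
    intro g h
    constructor
    · rintro ⟨r, hr⟩ h0
      obtain ⟨i, j, k, h1, h2, h3⟩ := of_pop hr
      have h4 : Matrix.single i j (1 : K) * Matrix.single j k (1 : K) ∈ cmp K g * cmp K h :=
        Submodule.mul_mem_mul (single_mem K i j 1 h1) (single_mem K j k 1 h2)
      rw [h0, Submodule.mem_bot, Matrix.single_mul_single_same] at h4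
      have h5 := congrFun (congrFun h4 i) k
      simp at h5
    · intro hne
      have : ∃ M ∈ cmp K g, ∃ N ∈ cmp K h, M * N ≠ 0 := by
        by_contra hcon
        push Not at hcon
        apply hne
        rw [eq_bot_iff, Submodule.mul_le]
        intro M hM N hN
        rw [hcon M hM N hN]
        exact Submodule.zero_mem _
      obtain ⟨M, hM, N, hN, hMN⟩ := this
      have : ∃ i k, (M * N) i k ≠ 0 := by
        by_contra hcon
        push Not at hcon
        exact hMN (Matrix.ext hcon)
      obtain ⟨i, k, hik⟩ := this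
      rw [Matrix.mul_apply] at hik
      obtain ⟨j, _, hj⟩ := Finset.exists_ne_zero_of_sum_ne_zero hik
      refine ⟨⟨rep (i, k), ⟨_, rfl⟩⟩, ?_⟩
      exact pop_eq (hM i j (left_ne_zero_of_mul hj)) (hN j k (right_ne_zero_of_mul hj)) rfl
  mul_le := by
    intro g h r hr
    obtain ⟨i, j, k, h1, h2, h3⟩ := of_pop hr
    rw [Submodule.mul_le]
    intro M hM N hN a c hac
    rw [Matrix.mul_apply] at hac
    obtain ⟨b, _, hb⟩ := Finset.exists_ne_zero_of_sum_ne_zero hac
    rw [← h3]
    exact rep_mul ((hM a b (left_ne_zero_of_mul hb)).trans h1.symm)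
      ((hN b c (right_ne_zero_of_mul hb)).trans h2.symm)

end construction

/-- **Not every grading of a full matrix algebra is a semigroup grading.** For every field `K` and
every `n ≥ 3`, the algebra of `n × n` matrices over `K` has a grading over a finite set, all of whose
components are nonzero, which is not a semigroup grading. -/
theorem result (K : Type u) [Field K] (n : ℕ) (hn : 3 ≤ n) :
    ∃ (Γ : Type) (_ : Finite Γ) (D : Grading K (Matrix (Fin n) (Fin n) K) Γ),
      (∀ g, D.comp g ≠ ⊥) ∧ ¬ Grading.IsSemigroupGrading.{u, u, 0, z} D := by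
  refine ⟨Set.range (rep (n := n)), inferInstance, gr K, ?_, ?_⟩
  · rintro ⟨g, ⟨⟨i, j⟩, hij⟩⟩ h0
    have h1 := single_mem K i j (1 : K) (g := ⟨g, ⟨⟨i, j⟩, hij⟩⟩) hij
    have h2 : Matrix.single i j (1 : K) ∈ (gr K).comp ⟨g, ⟨⟨i, j⟩, hij⟩⟩ := h1
    rw [h0, Submodule.mem_bot] at h2
    have h5 := congrFun (congrFun h2 i) j
    simp at h5
  · rintro ⟨G, _, ι, hinj, hι⟩
    let i0 : Fin n := ⟨0, by omega⟩
    let i1 : Fin n := ⟨1, by omega⟩
    let i2 : Fin n := ⟨2, by omega⟩
    let a : Set.range (rep (n := n)) := ⟨rep (i0, i2), ⟨_, rfl⟩⟩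
    let b : Set.range (rep (n := n)) := ⟨rep (i0, i0), ⟨_, rfl⟩⟩
    let c : Set.range (rep (n := n)) := ⟨rep (i0, i1), ⟨_, rfl⟩⟩
    have e1 : rep (i2, i1) = rep (i0, i0) := rfl
    have e2 : rep (i2, i2) = rep (i0, i1) := rfl
    have e3 : rep (i0, i0) ≠ rep (i0, i1) := by
      show ((0, 0) : ℕ × ℕ) ≠ (0, 1)
      decide
    have h1 : ι c = ι a * ι b :=
      hι a b c (pop_eq (i := i0) (j := i2) (k := i1) rfl e1 rfl)
    have h2 : ι b = ι b * ι b :=
      hι b b b (pop_eq (i := i0) (j := i0) (k := i0) rfl rfl rfl)
    have h3 : ι b = ι c * ι b :=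
      hι c b b (pop_eq (i := i2) (j := i2) (k := i1) e2 e1 e1)
    have h4 : ι b = ι c := by
      rw [h3, h1, mul_assoc, ← h2]
    exact e3 (congrArg Subtype.val (hinj h4))

end Pool.Agent.Results.MP_5a34df_al.NonSemigroupGrading
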